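import Mathlib
import Pool.Agent.Y55.GCR.Tail
import Pool.Agent.Results.MP_9227d9_nt.HalfDescent

/-!
# The gcd recursion with `n (n + 2m)`: power saving, at every time of a descent

Along the descent between two consecutive zeros `n < n'` the remaining time `n' - s` is at every
time `s` at most half of the current value `a(s)`, up to a power saving and to the least prime
factor of `(n'+1)(n'+2m+1)`.
-/

set_option autoImplicit false

namespace Pool.Agent.Results.MP_9227d9_nt.EveryTimePowerSaving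

open Finset Pool.Agent.H399R2 Pool.Agent.TH999.GCR Pool.Agent.Y55.GCR

/-- There are absolute constants `δ > 0` and `C` such that for all `m ≥ 1`, the recursion `a` of the
problem and all consecutive zeros `n < n'` of it: (1) at every time `s` of the descent
(`n < s ≤ n'`) every prime factor `p` of `(n'+1)(n'+2m+1)` satisfies
`2 (n' - s) ≤ a(s) + p + C a(s)^(1-δ)`; (2) if `2 (n' - s) > a(s) + √(n'+2m+1) + C a(s)^(1-δ)` at
some time `s` of the descent, then `n'+1` and `n'+2m+1` are prime; (3) with the starting value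
`X = (n+1)(n+2m+1)` of the descent, either `n'+1` and `n'+2m+1` are both prime or
`n' - n ≤ X/2 + C X^(1-δ)`. -/
theorem result :
    ∃ δ C : ℝ, 0 < δ ∧ 0 < C ∧ ∀ m : ℕ, 1 ≤ m → ∀ a : ℕ → ℤ, a 1 = 4 * (m : ℤ) ^ 2 →
      (∀ n : ℕ, 2 ≤ n →
        a n = |a (n - 1) - ((Int.gcd (a (n - 1)) ((n : ℤ) * ((n : ℤ) + 2 * (m : ℤ)))) : ℤ)|) →
      ∀ n n' : ℕ, 1 ≤ n → n < n' → a n = 0 → a n' = 0 → (∀ k : ℕ, n < k → k < n' → a k ≠ 0) →
        (∀ s : ℕ, n < s → s ≤ n' → ∀ p : ℕ, p.Prime → p ∣ (n' + 1) * (n' + 2 * m + 1) →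
          2 * ((n' : ℝ) - s) ≤ (a s : ℝ) + p + C * (a s : ℝ) ^ (1 - δ)) ∧
        (∀ s : ℕ, n < s → s ≤ n' →
          (a s : ℝ) + √((n' : ℝ) + 2 * m + 1) + C * (a s : ℝ) ^ (1 - δ) < 2 * ((n' : ℝ) - s) →
          Nat.Prime (n' + 1) ∧ Nat.Prime (n' + 2 * m + 1)) ∧
        ((Nat.Prime (n' + 1) ∧ Nat.Prime (n' + 2 * m + 1)) ∨
          (n' : ℝ) - n ≤ 1 / 2 * (((n + 1) * (n + 2 * m + 1) : ℕ) : ℝ) +
            C * (((n + 1) * (n + 2 * m + 1) : ℕ) : ℝ) ^ (1 - δ)) := by
  obtain ⟨δ, C₀, hδ, hδ4, hC₀, hmain⟩ := tail 1 2 (by norm_num)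
  refine ⟨δ, C₀ + 3, hδ, by positivity, ?_⟩
  intro m hm a ha1 ha n n' hn hnn' han han' hne
  set V : ℕ → ℤ := fun n => (n : ℤ) * ((n : ℤ) + 2 * (m : ℤ)) with hVdef
  have hseg : Seg (fun k => (a k).natAbs) V (n + 1) n' :=
    seg_of_zeros (V := V) (by rw [ha1]; positivity) ha (by omega) (by omega)
      (fun k h1 h2 => hne k (by omega) h2)
  have hnn : ∀ k, 1 ≤ k → 0 ≤ a k := by
    intro k hk
    rcases Nat.lt_or_ge k 2 with h | h
    · have : k = 1 := by omega
      subst this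
      rw [ha1]
      positivity
    · rw [ha k h]
      exact abs_nonneg _
  have hcast : ∀ k, 1 ≤ k → (((a k).natAbs : ℕ) : ℝ) = (a k : ℝ) := by
    intro k hk
    rw [Nat.cast_natAbs, abs_of_nonneg (hnn k hk)]
  have hxf : (a n').natAbs = 0 := by rw [han']; rfl
  -- the main inequality at time `s`
  have hA : ∀ s : ℕ, n < s → s ≤ n' → ∀ p : ℕ, p.Prime → p ∣ (n' + 1) * (n' + 2 * m + 1) →
      2 * ((n' : ℝ) - s) ≤ (a s : ℝ) + p + C₀ * (a s : ℝ) ^ (1 - δ) := by
    intro s hs1 hs2 p hp hdvd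
    have hseg' : Seg (fun k => (a k).natAbs) V ((s - 1) + 1) n' := by
      have e1 : s - 1 + 1 = s := by omega
      rw [e1]
      exact seg_sub hseg (by omega) hs2
    have hgood := HalfDescent.good m (s - 1) n' (fun k => (a k).natAbs) hseg'
    obtain ⟨l, hsl, hle, htr, hrun, hl⟩ := hmain _ _ _ _ _ _ hgood hxf
    have hdet := HalfDescent.detect m n' l (fun k => (a k).natAbs) hle htr hrun p hp hdvd
    have e1 : s - 1 + 1 = s := by omega
    rw [e1] at hl
    simp only [hcast s (by omega)] at hl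
    have h2 : (n' : ℝ) - l ≤ p := by
      have h3 : n' ≤ l + p := by omega
      have h4 : (n' : ℝ) ≤ ((l + p : ℕ) : ℝ) := by exact_mod_cast h3
      push_cast at h4
      linarith
    push_cast at hl
    linarith
  have hrpow0 : ∀ s : ℕ, n < s → 0 ≤ (a s : ℝ) ^ (1 - δ) := by
    intro s hs
    apply Real.rpow_nonneg
    exact_mod_cast hnn s (by omega)
  -- the least prime factors
  have hB : ∀ s : ℕ, n < s → s ≤ n' → (Nat.Prime (n' + 1) ∧ Nat.Prime (n' + 2 * m + 1)) ∨
      2 * ((n' : ℝ) - s) ≤ (a s : ℝ) + √((n' : ℝ) + 2 * m + 1) + C₀ * (a s : ℝ) ^ (1 - δ) := by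
    intro s hs1 hs2
    have key : ∀ p : ℕ, p.Prime → p ∣ (n' + 1) * (n' + 2 * m + 1) →
        p ≤ Nat.sqrt (n' + 2 * m + 1) →
        2 * ((n' : ℝ) - s) ≤ (a s : ℝ) + √((n' : ℝ) + 2 * m + 1) + C₀ * (a s : ℝ) ^ (1 - δ) := by
      intro p hp h1 h2
      have h3 := hA s hs1 hs2 p hp h1
      have h4 : (p : ℝ) ≤ ((Nat.sqrt (n' + 2 * m + 1) : ℕ) : ℝ) := by exact_mod_cast h2
      have h5 : ((Nat.sqrt (n' + 2 * m + 1) : ℕ) : ℝ) ≤ √((n' + 2 * m + 1 : ℕ) : ℝ) :=
        Real.nat_sqrt_le_real_sqrt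
      push_cast at h5
      linarith
    by_cases hp1 : Nat.Prime (n' + 1)
    · by_cases hp2 : Nat.Prime (n' + 2 * m + 1)
      · exact Or.inl ⟨hp1, hp2⟩
      · right
        apply key (Nat.minFac (n' + 2 * m + 1)) (Nat.minFac_prime (by omega))
          (Dvd.dvd.mul_left (Nat.minFac_dvd _) _)
        rw [Nat.le_sqrt']
        exact Nat.minFac_sq_le_self (by omega) hp2
    · right
      apply key (Nat.minFac (n' + 1)) (Nat.minFac_prime (by omega))
        (Dvd.dvd.mul_right (Nat.minFac_dvd _) _)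
      rw [Nat.le_sqrt']
      exact (Nat.minFac_sq_le_self (by omega) hp1).trans (by omega)
  refine ⟨?_, ?_, ?_⟩
  · intro s hs1 hs2 p hp hdvd
    have h1 := hA s hs1 hs2 p hp hdvd
    have h2 := hrpow0 s hs1
    linarith
  · intro s hs1 hs2 hlt
    rcases hB s hs1 hs2 with h | h
    · exact h
    · exfalso
      have h2 := hrpow0 s hs1
      linarith
  · rcases hB (n + 1) (by omega) (by omega) with h | h
    · exact Or.inl h
    right
    have hstart : (a (n + 1) : ℝ) = (((n + 1) * (n + 2 * m + 1) : ℕ) : ℝ) := by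
      have h1 : a (n + 1) = (((n + 1) * (n + 2 * m + 1) : ℕ) : ℤ) := by
        rw [ha (n + 1) (by omega), Nat.add_sub_cancel, han]
        simp only [Int.gcd_zero_left, zero_sub, abs_neg]
        rw [Nat.abs_cast]
        have : (((n + 1 : ℕ) : ℤ) * (((n + 1 : ℕ) : ℤ) + 2 * (m : ℤ)))
            = (((n + 1) * (n + 2 * m + 1) : ℕ) : ℤ) := by push_cast; ring
        rw [this, Int.natAbs_natCast]
      rw [h1]
      norm_cast
    rw [hstart] at h
    have hdec := decr hseg n' (by omega) le_rfl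
    have hsN : (a (n + 1)).natAbs = (n + 1) * (n + 2 * m + 1) := by
      have h1 := hcast (n + 1) (by omega)
      rw [hstart] at h1
      exact_mod_cast h1
    simp only [hxf, hsN] at hdec
    set X : ℕ := (n + 1) * (n + 2 * m + 1) with hX
    have hX8 : 8 ≤ X := by
      have : 2 * 4 ≤ (n + 1) * (n + 2 * m + 1) := Nat.mul_le_mul (by omega) (by omega)
      omega
    have hX2 : n + 2 * m + 1 ≤ X := by
      have : 1 * (n + 2 * m + 1) ≤ (n + 1) * (n + 2 * m + 1) := Nat.mul_le_mul (by omega) le_rfl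
      omega
    have hXr : (8 : ℝ) ≤ X := by exact_mod_cast hX8
    have h6 : √((n' : ℝ) + 2 * m + 1) ≤ 3 * (X : ℝ) ^ (1 - δ) := by
      have h7 : n' + 2 * m + 1 ≤ 9 * X := by omega
      have h8 : ((n' + 2 * m + 1 : ℕ) : ℝ) ≤ ((9 * X : ℕ) : ℝ) := by exact_mod_cast h7
      push_cast at h8
      calc √((n' : ℝ) + 2 * m + 1) ≤ √(9 * X) := Real.sqrt_le_sqrt (by linarith)
        _ = 3 * √X := by
            rw [Real.sqrt_mul (by norm_num), show (9 : ℝ) = 3 ^ 2 by norm_num,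
              Real.sqrt_sq (by norm_num)]
        _ ≤ 3 * (X : ℝ) ^ (1 - δ) := by
            apply mul_le_mul_of_nonneg_left _ (by norm_num)
            rw [Real.sqrt_eq_rpow]
            exact Real.rpow_le_rpow_of_exponent_le (by linarith) (by linarith)
    have h9 : (1 : ℝ) ≤ (X : ℝ) ^ (1 - δ) := Real.one_le_rpow (by linarith) (by linarith)
    push_cast at h
    nlinarith

end Pool.Agent.Results.MP_9227d9_nt.EveryTimePowerSaving
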